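import Pool.Agent.H7.LD.Stmts

/-!
Row XLO of the board `ld16` (MP_fd41b2_co): sizes.
-/

set_option autoImplicit false

open Finset

namespace Pool.LD7

open Pool.Agent.H23.KT Pool.Agent.H46.KW Pool.KQ Pool.GT7 Pool.GU7 Pool.HZ7 Pool.IA7

theorem XLO_thm (hE : ESTStmt) (hS : SWLStmt) : Pool.LD7.XLOStmt := by
  intro p w a r x lo n hr hsum hlo
  have h1 := hE.2.2.2 p w lo x n 0 hlo
  obtain ⟨m, hm⟩ : ∃ m : Fin (p + 3) → ℕ, m = Function.update n 0 (n 0 + x) := ⟨_, rfl⟩
  rw [← hm] at h1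
  have hsumm : ∑ i, m i = (p + 3) * a + r := by
    have e1 : ∑ i, m i = (n 0 + x) + ∑ i ∈ univ \ {0}, n i := by
      rw [hm]
      exact Finset.sum_update_of_mem (mem_univ _) n (n 0 + x)
    have e2 : ∑ i, n i = n 0 + ∑ i ∈ univ \ {0}, n i := by
      have := Finset.sum_update_of_mem (mem_univ (0 : Fin (p + 3))) n (n 0)
      rwa [Function.update_eq_self] at this
    omega
  have h2 := hS p w a r 0 ((p + 3) * a + r + 1) 0 (by omega) (Nat.zero_le _) (by nlinarith)
    (by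
      have : (0 : ℝ) ≤ (p + 1).choose w * ((0 : ℕ) : ℝ) ^ w := by positivity
      linarith) m hsumm
    (fun i => ⟨Nat.zero_le _, by
      have : m i ≤ ∑ j, m j := single_le_sum (fun j _ => Nat.zero_le _) (mem_univ i)
      omega⟩)
  rw [zero_mul, zero_mul, add_zero, add_zero] at h2
  have h3 : es m (w + 2) ≤ TT (p + 3) (w + 2) a r := by exact_mod_cast h2
  exact h1.trans h3

end Pool.LD7
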